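import Mathlib
import Pool.Agent.R328.SD
import Pool.Agent.H196R3.ParryB

/-!
# Explicit lower bounds for Salem numbers: isometries of Lorentzian lattices, bounded residues

Part 1.  Let `A` be an isometry of an integral lattice of signature `(n - 1, 1)` with real eigenvalue
`β > 1`, acting on hyperbolic space as a translation along an axis with the ends `e`, `f`.  Let `v`
be a vector of the lattice with `(v, v) ≤ L` and `0 < |(v, e) (v, f)| ≤ L |(e, f)|`: the axis is at
bounded distance from the point `v` or from the hyperplane orthogonal to `v`.  If `(v, v) = - k < 0`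
and the distance from the point `v` to the axis is `R` then `L = (k / 2) cosh (R) ^ 2` is possible,
and `log (1 + L)` is at most `2 R + log (1 + k)`.  Then, with an absolute constant `c > 0`:
* `log β ≥ c / (1 + log (1 + L) + (n - deg β)) ^ 3`; in particular
  `log β ≥ c / (1 + log (1 + L)) ^ 3` if the characteristic polynomial of `A` is irreducible;
* more generally, if `h` is an integral polynomial with `h(β) ≠ 0` such that `A` is annihilated by
  the product of `h` and the minimal polynomial of `β` (for instance `h = X ^ M - 1` if `A` has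
  order `M` on the complement) then
  `log β ≥ c / (1 + log (1 + L) + log (length h) + log (1 + deg h) + deg h * log β) ^ 3`.

Part 2.  Let `β` be a Perron number with minimal polynomial `m`, `Q` a nonzero integral polynomial of
smaller degree than `m` and `S = ∑ |Q(a) / m'(a)|`, the sum over the zeros of `m`.  If
`log β * (1 + log (1 + S)) ^ 3 < c` then only finitely many powers of `β` are Parry numbers.
-/

set_option autoImplicit false

open Polynomial

namespace Pool.Agent.Results.MP_1f45fc_nt.AxisDistance

noncomputable section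

/-- The symmetric bilinear form with the integral Gram matrix `G`. -/
def form {n : ℕ} (G : Matrix (Fin n) (Fin n) ℤ) (x y : Fin n → ℝ) : ℝ :=
  ∑ i, ∑ j, x i * (G i j : ℝ) * y j

/-- `A` is an integral isometry of the integral symmetric form `G`, with eigenvectors `e` and `f` for
the eigenvalues `β > 1` and `1 / β`, and `G` is positive definite on the space of the vectors
orthogonal to `e` and `f`. -/
structure IsLoxodromic {n : ℕ} (G A : Matrix (Fin n) (Fin n) ℤ) (e f : Fin n → ℝ) (β : ℝ) :
    Prop where
  symmetric : G.transpose = G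
  isometry : A.transpose * G * A = G
  one_lt : 1 < β
  eigen_e : ∀ i, ∑ j, (A i j : ℝ) * e j = β * e i
  eigen_f : ∀ i, ∑ j, (A i j : ℝ) * f j = β⁻¹ * f i
  positive : ∀ x : Fin n → ℝ, x ≠ 0 → form G e x = 0 → form G f x = 0 → 0 < form G x x

/-- `v` is a lattice vector with `(v, v) ≤ L` and `0 < |(v, e) (v, f)| ≤ L |(e, f)|`: the axis with
the ends `e`, `f` is at bounded distance from `v`, or from the hyperplane orthogonal to `v`. -/
def NearAxis (L : ℝ) {n : ℕ} (G : Matrix (Fin n) (Fin n) ℤ) (e f : Fin n → ℝ) (v : Fin n → ℤ) :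
    Prop :=
  form G (fun i => (v i : ℝ)) (fun i => (v i : ℝ)) ≤ L ∧
    0 < |form G e (fun i => (v i : ℝ)) * form G f (fun i => (v i : ℝ))| ∧
    |form G e (fun i => (v i : ℝ)) * form G f (fun i => (v i : ℝ))| ≤ L * |form G e f|

/-- The sum of the absolute values of the coefficients. -/
def length (h : ℤ[X]) : ℝ := ∑ i ∈ Finset.range (h.natDegree + 1), |(h.coeff i : ℝ)|

/-- The degree of an algebraic number. -/
def deg (β : ℝ) : ℕ := (minpoly ℤ β).natDegree

/-- `β > 1` is an algebraic integer whose other conjugates have modulus less than `β`. -/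
def IsPerron (β : ℝ) : Prop :=
  1 < β ∧ IsIntegral ℤ β ∧ ∀ z : ℂ, aeval z (minpoly ℤ β) = 0 → z ≠ (β : ℂ) → ‖z‖ < β

/-- The set of the `k ≥ 1` such that `β ^ k` is a Parry number, that is, the orbit of `1` under
`x ↦ fract (β ^ k * x)` is finite. -/
def parryPowers (β : ℝ) : Set ℕ :=
  {k : ℕ | 1 ≤ k ∧ (Set.range fun i : ℕ => (fun x : ℝ => Int.fract (β ^ k * x))^[i] 1).Finite}

/-- The sum of the absolute values `|Q(a)| / |m'(a)|` over the complex zeros `a` of `m`. -/
def residueSum (m Q : ℤ[X]) : ℝ :=
  ∑ a ∈ (m.map (Int.castRingHom ℂ)).roots.toFinset,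
    ‖(Q.map (Int.castRingHom ℂ)).eval a‖ / ‖(derivative (m.map (Int.castRingHom ℂ))).eval a‖

theorem result : ∃ c : ℝ, 0 < c ∧
    (∀ (n : ℕ) (G A : Matrix (Fin n) (Fin n) ℤ) (e f : Fin n → ℝ) (β L : ℝ) (v : Fin n → ℤ),
      IsLoxodromic G A e f β → NearAxis L G e f v →
      c / (1 + Real.log (1 + L) + ((n : ℝ) - deg β)) ^ 3 ≤ Real.log β ∧
      ∀ h : ℤ[X], aeval A (minpoly ℤ β * h) = 0 → aeval β h ≠ 0 →
        c / (1 + Real.log (1 + L) + Real.log (length h) + Real.log (1 + h.natDegree) +
          h.natDegree * Real.log β) ^ 3 ≤ Real.log β) ∧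
    (∀ β : ℝ, IsPerron β → ∀ Q : ℤ[X], Q ≠ 0 → Q.degree < (minpoly ℤ β).degree →
      Real.log β * (1 + Real.log (1 + residueSum (minpoly ℤ β) Q)) ^ 3 < c →
      (parryPowers β).Finite) := by
  obtain ⟨c1, hc1, h1⟩ := Pool.Agent.R328.lorentz_main
  obtain ⟨c2, hc2, h2⟩ := Pool.Agent.R328.residues
  refine ⟨min c1 c2, lt_min hc1 hc2, ?_, ?_⟩
  · intro n G A e f β L v hA hv
    obtain ⟨hv1, hv2, hv3⟩ := hv
    have he : (A.map (Int.castRingHom ℝ)).mulVec e = β • e := by
      ext i
      simpa [Matrix.mulVec, dotProduct] using hA.eigen_e i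
    have hf : (A.map (Int.castRingHom ℝ)).mulVec f = β⁻¹ • f := by
      ext i
      simpa [Matrix.mulVec, dotProduct] using hA.eigen_f i
    obtain ⟨h3, h4⟩ := h1 n G A e f β v L hA.symmetric hA.isometry hA.one_lt he hf hA.positive hv1
      (abs_pos.mp hv2) hv3
    have hlog : 0 < Real.log β := Real.log_pos hA.one_lt
    have hL0 : 0 ≤ L := by
      by_contra hcon
      push Not at hcon
      have h5 := hv2.trans_le hv3
      have h6 := mul_nonpos_of_nonpos_of_nonneg hcon.le (abs_nonneg (form G e f))
      linarith
    have hx : 0 ≤ Real.log (1 + L) := Real.log_nonneg (by linarith)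
    refine ⟨?_, ?_⟩
    · have hdeg : (deg β : ℝ) ≤ n := by
        have hroot : IsIntegral ℤ β ∧ aeval β A.charpoly = 0 := by
          have h5 : aeval β A.charpoly = 0 := by
            have h6 : (A.map (Int.castRingHom ℝ)).charpoly.eval β = 0 := by
              rw [Matrix.eval_charpoly]
              apply Matrix.exists_mulVec_eq_zero_iff.mp
              refine ⟨e, ?_, ?_⟩
              · rintro rfl
                have h7 : form G 0 (fun i => (v i : ℝ)) = 0 := by simp [form]
                rw [h7, zero_mul, abs_zero] at hv2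
                exact lt_irrefl _ hv2
              · rw [Matrix.sub_mulVec, he]
                ext i
                simp [Matrix.scalar_apply, Matrix.mulVec_diagonal]
            rw [Matrix.charpoly_map, eval_map] at h6
            rw [aeval_def]
            exact h6
          refine ⟨⟨A.charpoly, Matrix.charpoly_monic A, ?_⟩, h5⟩
          rw [← aeval_def]; exact h5
        have hdvd := minpoly.isIntegrallyClosed_dvd hroot.1 hroot.2
        have h6 := natDegree_le_of_dvd hdvd (Matrix.charpoly_monic A).ne_zero
        rw [Matrix.charpoly_natDegree_eq_dim, Fintype.card_fin] at h6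
        exact_mod_cast h6
      refine le_trans ?_ h4
      have h5 : 0 ≤ (n : ℝ) - deg β := by linarith
      apply div_le_div_of_nonneg_right (min_le_left _ _)
      have h6 : 0 ≤ 1 + Real.log (1 + L) + ((n : ℝ) - (minpoly ℤ β).natDegree) := by
        have : 0 ≤ (n : ℝ) - (minpoly ℤ β).natDegree := h5
        linarith
      positivity
    · intro h hh hh0
      refine le_trans ?_ (h3 h hh hh0)
      have hne : h ≠ 0 := by
        rintro rfl
        simp at hh0
      have g3 : 0 ≤ Real.log (Pool.Agent.R328.len h) :=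
        Real.log_nonneg (Pool.Agent.R328.one_le_len hne)
      have g4 : (0:ℝ) ≤ h.natDegree := Nat.cast_nonneg _
      have g6 : 0 ≤ Real.log (1 + (h.natDegree : ℝ)) := Real.log_nonneg (by linarith)
      have g7 : 0 ≤ h.natDegree * Real.log β := mul_nonneg g4 hlog.le
      exact div_le_div_of_nonneg_right (min_le_left _ _) (by positivity)
  · intro β hβ Q hQ hdeg hsmall
    by_contra hinf
    have hone : ∀ z : ℂ, aeval z (minpoly ℤ β) = 0 → z ≠ (β : ℂ) → ‖z‖ ≤ 1 := by
      intro z hz hne
      exact Pool.Agent.H196R3.Parry.conj_le_one hβ.1 hβ.2.1 hβ.2.2 hinf hz hne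
    have hM := Pool.Agent.H196R3.Parry.mahler_eq hβ.1 hβ.2.1 hone
    have hM' : Pool.Agent.H261R2.CM.m1 (minpoly ℤ β) = β := hM
    have h3 := h2 (minpoly ℤ β) Q (residueSum (minpoly ℤ β) Q) (minpoly.irreducible hβ.2.1) hQ hdeg
      le_rfl (by rw [hM']; exact hβ.1)
    rw [hM'] at h3
    have hS : 0 ≤ residueSum (minpoly ℤ β) Q := Finset.sum_nonneg fun _ _ => by positivity
    have hl : 0 ≤ Real.log (1 + residueSum (minpoly ℤ β) Q) := Real.log_nonneg (by linarith)
    rw [div_le_iff₀ (by positivity)] at h3
    have := min_le_right c1 c2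
    linarith

end

end Pool.Agent.Results.MP_1f45fc_nt.AxisDistance
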