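import Mathlib
import Pool.Agent.R329.Par.Pow
import Pool.Agent.Results.MP_7ab245_nt.CyclotomicCongruences

/-!
# Parry powers of Perron numbers and congruences with products of cyclotomic polynomials

Let `β` be a Perron number, `k ≥ 1`, `m` the minimal polynomial of `β ^ k` and `n` its degree. Let `T` be
a monic integer polynomial of degree `D` such that `T(X)` divides `T(X ^ l)` for all `l ≥ 1`; for
instance any product of polynomials `X ^ a - 1`, with arbitrarily many factors and with repetitions.

* If `m` divides `T` modulo an integer `q ≥ 2` (that is `T ∈ (m, q)`), and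
  `β ^ k < min (2, exp (x ^ 2 / (136 log (2 n D q))))` with `x = n log q / D`, then only finitely many
  powers of `β` are Parry numbers.
* Let `p` be a prime number and let `A` be a divisor of `m` modulo `p`, prime to its cofactor, of degree
  `d`. If `A` divides `T ^ (p ^ s)` modulo `p`, and
  `β ^ k < min (2, exp (min (x, x ^ 2 / log (2 n D p)) / (136 p ^ s)))` with
  `x = d ^ 2 log p / (n D)`, then only finitely many powers of `β` are Parry numbers.
-/

set_option autoImplicit false

open Polynomial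

namespace Pool.Agent.Results.MP_1f45fc_nt.CyclotomicCongruences

/-- `β > 1` is an algebraic integer whose other conjugates have modulus less than `β`. -/
def IsPerron (β : ℝ) : Prop :=
  1 < β ∧ IsIntegral ℤ β ∧ ∀ z : ℂ, aeval z (minpoly ℤ β) = 0 → z ≠ (β : ℂ) → ‖z‖ < β

/-- The set of the `k ≥ 1` such that `β ^ k` is a Parry number, that is, the orbit of `1` under
`x ↦ fract (β ^ k * x)` is finite. -/
def parryPowers (β : ℝ) : Set ℕ :=
  {k : ℕ | 1 ≤ k ∧ (Set.range fun i : ℕ => (fun x : ℝ => Int.fract (β ^ k * x))^[i] 1).Finite}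

theorem result (β : ℝ) (hβ : IsPerron β) (k : ℕ) (hk : 1 ≤ k) (m T : ℤ[X])
    (hm : m = minpoly ℤ (β ^ k)) (hTm : T.Monic) (hT : ∀ l : ℕ, 0 < l → T ∣ T.comp (X ^ l)) :
    (∀ q : ℕ, 2 ≤ q → T ∈ Ideal.span {m, C (q : ℤ)} →
      β ^ k < min 2 (Real.exp (((m.natDegree : ℝ) * Real.log q / T.natDegree) ^ 2 /
        (136 * Real.log (2 * m.natDegree * T.natDegree * q)))) → (parryPowers β).Finite) ∧
    (∀ (p : ℕ) (s : ℕ) (A B : (ZMod p)[X]) (x : ℝ), p.Prime →
      m.map (Int.castRingHom (ZMod p)) = A * B → IsCoprime A B →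
      A ∣ (T.map (Int.castRingHom (ZMod p))) ^ p ^ s →
      x = (A.natDegree : ℝ) ^ 2 * Real.log p / (m.natDegree * T.natDegree) →
      β ^ k < min 2 (Real.exp (min x (x ^ 2 / Real.log (2 * m.natDegree * T.natDegree * p)) /
        (136 * (p : ℝ) ^ s))) → (parryPowers β).Finite) := by
  subst hm
  constructor
  · intro q hq hTf hsmall
    by_contra hinf
    obtain ⟨h1, h2, h3, h4, h5⟩ := Pool.Agent.R329.Par.pow_facts (β := β) hβ hinf hk
    have h6 := (Pool.Agent.Results.MP_7ab245_nt.CyclotomicCongruences.result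
      (minpoly ℤ (β ^ k)) h3 (by rw [h4]; exact h1) h5 T hTm hT).1 q hq hTf
    rw [h4] at h6
    exact absurd hsmall (not_lt.mpr h6)
  · intro p s A B x hp hAB hco hA hx hsmall
    by_contra hinf
    obtain ⟨h1, h2, h3, h4, h5⟩ := Pool.Agent.R329.Par.pow_facts (β := β) hβ hinf hk
    have h6 := (Pool.Agent.Results.MP_7ab245_nt.CyclotomicCongruences.result
      (minpoly ℤ (β ^ k)) h3 (by rw [h4]; exact h1) h5 T hTm hT).2 p s A B x hp hAB hco hA hx
    rw [h4] at h6
    exact absurd hsmall (not_lt.mpr h6)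

end Pool.Agent.Results.MP_1f45fc_nt.CyclotomicCongruences
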