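import Mathlib
import Pool.Agent.R329.Par.Pow
import Pool.Agent.Results.MP_7ab245_nt.FrobeniusBaseFields

/-!
# Parry powers of Perron numbers of small degree over a field with Frobenius automorphisms
-/

set_option autoImplicit false

open Polynomial NumberField

namespace Pool.Agent.Results.MP_1f45fc_nt.FrobeniusBaseFields

/-- `β > 1` is an algebraic integer whose other conjugates have modulus less than `β`. -/
def IsPerron (β : ℝ) : Prop :=
  1 < β ∧ IsIntegral ℤ β ∧ ∀ z : ℂ, aeval z (minpoly ℤ β) = 0 → z ≠ (β : ℂ) → ‖z‖ < β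

/-- The set of the `k ≥ 1` such that `β ^ k` is a Parry number, that is, the orbit of `1` under
`x ↦ fract (β ^ k * x)` is finite. -/
def parryPowers (β : ℝ) : Set ℕ :=
  {k : ℕ | 1 ≤ k ∧ (Set.range fun i : ℕ => (fun x : ℝ => Int.fract (β ^ k * x))^[i] 1).Finite}

/-- `F` has a Frobenius automorphism at `p`: there is an automorphism `φ` of `F` with
`φ(a) ≡ a ^ p` modulo `p` for all algebraic integers `a` of `F`. -/
def HasFrobenius (F : Type) [Field F] (p : ℕ) : Prop :=
  ∃ φ : F ≃+* F, ∀ a : 𝓞 F, (p : 𝓞 F) ∣ RingOfIntegers.mapRingHom (φ : F →+* F) a - a ^ p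

open Classical in
/-- The sum of `log p` over the prime numbers `p ≤ Y` at which `F` has a Frobenius automorphism. -/
noncomputable def frobeniusTheta (F : Type) [Field F] (Y : ℕ) : ℝ :=
  ∑ p ∈ (Finset.Icc 1 Y).filter (fun p => p.Prime ∧ HasFrobenius F p), Real.log p

/-- For every `δ > 0` there is `C > 0` such that: let `β` be a Perron number, `k ≥ 1`, `n` the degree
of `β ^ k`, `g` an irreducible factor over a number field `F` of the minimal polynomial of `β ^ k`,
`Y ≥ C (log (2 deg g)) ^ 2`, and let the sum of `log p` over the primes `p ≤ Y` at which `F` has a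
Frobenius automorphism be at least `δ Y`. If `β ^ k < min (2, exp (n / (C deg g Y ^ (3/2))))` then only
finitely many powers of `β` are Parry numbers. -/
theorem result (δ : ℝ) (hδ : 0 < δ) : ∃ C : ℝ, 0 < C ∧
    ∀ (F : Type) [Field F] [NumberField F] (β : ℝ) (k : ℕ) (g : F[X]) (Y : ℕ),
      IsPerron β → 1 ≤ k →
      Irreducible g → g ∣ (minpoly ℤ (β ^ k)).map (Int.castRingHom F) →
      C * (Real.log (2 * g.natDegree)) ^ 2 ≤ Y → δ * Y ≤ frobeniusTheta F Y →
      β ^ k < min 2 (Real.exp ((minpoly ℤ (β ^ k)).natDegree /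
        (C * (g.natDegree * (Y * Real.sqrt Y))))) → (parryPowers β).Finite := by
  obtain ⟨C, hC0, hC⟩ := Pool.Agent.Results.MP_7ab245_nt.FrobeniusBaseFields.result δ hδ
  refine ⟨C, hC0, ?_⟩
  intro F _ _ β k g Y hβ hk hg hgf hY hsum hsmall
  by_contra hinf
  obtain ⟨h1, h2, h3, h4, h5⟩ := Pool.Agent.R329.Par.pow_facts (β := β) hβ hinf hk
  have h6 := hC F (minpoly ℤ (β ^ k)) g Y h3 (by rw [h4]; exact h1) hg hgf hY hsum
  rw [h4] at h6
  exact absurd hsmall (not_lt.mpr h6)

end Pool.Agent.Results.MP_1f45fc_nt.FrobeniusBaseFields
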