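import Mathlib
import Pool.Agent.R329.Par.Pow
import Pool.Agent.Results.MP_7ab245_nt.RepellingZeros

/-!
# Parry powers of Perron numbers with large discriminant or with repelling conjugates

There is an absolute constant `c > 0` such that the following holds for every Perron number `β`.
Let `k ≥ 1`, let `m` be the minimal polynomial of `β ^ k`, `n` its degree and `A ≥ 0`. If

* `|disc m| ≥ (n / e ^ A) ^ n`, or, more generally,
* `∑ -log max (|z - w|, 1 / n) ≤ A n`, the sum being over all ordered pairs `(z, w)` of zeros of `m`,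

and `k * log β * (1 + A) ^ 3 < c`, then only finitely many powers of `β` are Parry numbers. In
particular such a `β` is not a Salem number. For zeros in the closed unit disc `|disc m| ≤ n ^ n`.
-/

set_option autoImplicit false

open Polynomial

namespace Pool.Agent.Results.MP_1f45fc_nt.LargeDiscriminants

/-- `β > 1` is an algebraic integer whose other conjugates have modulus less than `β`. -/
def IsPerron (β : ℝ) : Prop :=
  1 < β ∧ IsIntegral ℤ β ∧ ∀ z : ℂ, aeval z (minpoly ℤ β) = 0 → z ≠ (β : ℂ) → ‖z‖ < β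

/-- The set of the `k ≥ 1` such that `β ^ k` is a Parry number, that is, the orbit of `1` under
`x ↦ fract (β ^ k * x)` is finite. -/
def parryPowers (β : ℝ) : Set ℕ :=
  {k : ℕ | 1 ≤ k ∧ (Set.range fun i : ℕ => (fun x : ℝ => Int.fract (β ^ k * x))^[i] 1).Finite}

/-- The truncated energy of the zeros of `f`: the sum of `-log max (|z - w|, 1 / n)` over all ordered
pairs `(z, w)` of complex zeros of `f`, where `n` is the degree of `f`. -/
noncomputable def truncatedEnergy (f : ℤ[X]) : ℝ :=
  ((f.map (Int.castRingHom ℂ)).roots.map fun z =>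
    ((f.map (Int.castRingHom ℂ)).roots.map fun w =>
      -Real.log (max ‖z - w‖ (1 / f.natDegree))).sum).sum

theorem result : ∃ c : ℝ, 0 < c ∧ ∀ β : ℝ, IsPerron β → ∀ k : ℕ, 1 ≤ k →
    ∀ (m : ℤ[X]) (A : ℝ), m = minpoly ℤ (β ^ k) → 0 ≤ A →
    (truncatedEnergy m ≤ A * m.natDegree ∨
      m.natDegree * (Real.log m.natDegree - A) ≤ Real.log |(m.discr : ℝ)|) →
    k * Real.log β * (1 + A) ^ 3 < c → (parryPowers β).Finite := by
  obtain ⟨c, hc, h⟩ := Pool.Agent.Results.MP_7ab245_nt.RepellingZeros.result
  refine ⟨c, hc, ?_⟩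
  intro β hβ k hk m A hm hA hcond hsmall
  by_contra hinf
  obtain ⟨h1, h2, h3, h4, h5⟩ := Pool.Agent.R329.Par.pow_facts (β := β) hβ hinf hk
  subst hm
  have h6 := h (minpoly ℤ (β ^ k)) h3 (by rw [h4]; exact h1) A hA hcond
  rw [h4, ← Real.le_log_iff_exp_le (by linarith), Real.log_pow, div_le_iff₀ (by positivity)] at h6
  linarith

end Pool.Agent.Results.MP_1f45fc_nt.LargeDiscriminants
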